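import Pool.Agent.R828.Rect

/-!
# Rectifiable p-spaces with countable Souslin number are Lindelöf

Full positive answer to Q1 (and hence to Q2).  Let `K` be a compact set containing `e` with a
countable outer base.  There are symmetric neighbourhoods `Dn n` of the diagonal such that for each
`x` the iterated neighbourhoods `E n x 4 = Dn n (Dn n (Dn n (Dn n x)))` shrink to a compact set.  A
maximal disjoint family of `Dn n`-small open sets is countable; picking a point `y` in each of its
members we see that countably many sets `E n y 2` have the following property: each `x` has a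
compact set such that within each of its neighbourhoods there is one of these sets containing `x`.
-/

set_option autoImplicit false

open Set Topology Filter

universe u

namespace Pool.Agent.Results.MP_46c3d4_gt.LindelofOfCountableSouslin

/-- A space `X` is rectifiable: there are a point `e` and a homeomorphism `φ` of `X × X` onto itself
such that `φ ({x} × X) = {x} × X` and `φ (x, x) = (x, e)` for all `x`. -/
def Rectifiable (X : Type u) [TopologicalSpace X] : Prop :=
  ∃ (e : X) (φ : X × X ≃ₜ X × X),
    ∀ x : X, φ '' ({x} ×ˢ Set.univ) = {x} ×ˢ Set.univ ∧ φ (x, x) = (x, e)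

/-- A `p`-space in the sense of Arhangel'skii: a Tychonoff space `X` for which there is a sequence
`γ n` of families of open subsets of the Stone-Čech compactification of `X`, each of them covering
`X`, such that for each point `x` of `X` the intersection of the stars of `x` in the families `γ n`
is contained in `X`. -/
def IsPSpace (X : Type u) [TopologicalSpace X] : Prop :=
  T35Space X ∧ ∃ γ : ℕ → Set (Set (StoneCech X)),
    (∀ n, ∀ U ∈ γ n, IsOpen U) ∧
    (∀ n, Set.range (stoneCechUnit : X → StoneCech X) ⊆ ⋃₀ γ n) ∧
    ∀ x : X, (⋂ n, ⋃₀ {U | U ∈ γ n ∧ stoneCechUnit x ∈ U}) ⊆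
      Set.range (stoneCechUnit : X → StoneCech X)

/-- The Souslin number of `X` is countable: each family of pairwise disjoint nonempty open sets is
countable. -/
def CountableSouslinNumber (X : Type u) [TopologicalSpace X] : Prop :=
  ∀ 𝒢 : Set (Set X), (∀ G ∈ 𝒢, IsOpen G ∧ G.Nonempty) → 𝒢.PairwiseDisjoint id → 𝒢.Countable

/-- Every rectifiable `p`-space with countable Souslin number is Lindelöf. -/
theorem result : ∀ (X : Type u) [TopologicalSpace X], Rectifiable X → IsPSpace X →
    CountableSouslinNumber X → LindelofSpace X := by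
  rintro X _ ⟨e, φ, hφ⟩ ⟨_, γ, hγo, hγc', hγ⟩ hc
  have hφ1 : ∀ z : X × X, (φ z).1 = z.1 := by
    rintro ⟨x, y⟩
    have h1 : φ (x, y) ∈ φ '' ({x} ×ˢ Set.univ) := ⟨(x, y), ⟨rfl, trivial⟩, rfl⟩
    rw [(hφ x).1] at h1
    exact h1.1
  have hφ2 : ∀ x, φ (x, x) = (x, e) := fun x => (hφ x).2
  have hγc : ∀ n, ∀ x : X, ∃ U ∈ γ n, stoneCechUnit x ∈ U := fun n x => hγc' n ⟨x, rfl⟩
  let j : X → StoneCech X := stoneCechUnit
  have hj : IsEmbedding j := isEmbedding_stoneCechUnit
  choose G hG hGe using fun n => hγc n e
  -- closed neighbourhoods of `j e`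
  have step : ∀ (n : ℕ) (c : {c : Set (StoneCech X) // c ∈ 𝓝 (j e) ∧ IsClosed c}),
      ∃ c' : {c : Set (StoneCech X) // c ∈ 𝓝 (j e) ∧ IsClosed c},
        c'.1 ⊆ interior c.1 ∩ G n := by
    intro n c
    have h1 : interior c.1 ∩ G n ∈ 𝓝 (j e) :=
      inter_mem (interior_mem_nhds.2 c.2.1) ((hγo n _ (hG n)).mem_nhds (hGe n))
    obtain ⟨t, ht, htc, hts⟩ := exists_mem_nhds_isClosed_subset h1
    exact ⟨⟨t, ht, htc⟩, hts⟩
  choose f hf using step
  let c : ℕ → {c : Set (StoneCech X) // c ∈ 𝓝 (j e) ∧ IsClosed c} := fun n =>
    Nat.rec ⟨Set.univ, univ_mem, isClosed_univ⟩ (fun n c => f n c) n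
  have hc' : ∀ n, (c (n + 1)).1 ⊆ interior (c n).1 ∩ G n := fun n => hf n (c n)
  have hanti : Antitone fun n => (c n).1 :=
    antitone_nat_of_succ_le fun n => ((hc' n).trans inter_subset_left).trans interior_subset
  let K' : Set (StoneCech X) := ⋂ n, (c n).1
  have hK'c : IsCompact K' := (isClosed_iInter fun n => (c n).2.2).isCompact
  have hK'r : K' ⊆ Set.range j := by
    refine Subset.trans ?_ (hγ e)
    intro z hz
    refine mem_iInter.2 fun n => ?_
    exact mem_sUnion.2 ⟨G n, ⟨hG n, hGe n⟩, (hc' n (mem_iInter.1 hz (n + 1))).2⟩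
  have hKi : ∀ n, K' ⊆ interior (c n).1 := fun n z hz =>
    (hc' n (mem_iInter.1 hz (n + 1))).1
  let d : Pool.Agent.R828.Rect.Data X :=
    { p := fun z => (φ.symm z).2
      q := fun z => (φ z).2
      e := e
      hp := continuous_snd.comp φ.symm.continuous
      hq := continuous_snd.comp φ.continuous
      pq := by
        intro x y
        have h1 : φ (x, y) = (x, (φ (x, y)).2) := Prod.ext (hφ1 _) rfl
        rw [← h1, φ.symm_apply_apply]
      qp := by
        intro x y
        have h0 : (φ.symm (x, y)).1 = x := by
          have := hφ1 (φ.symm (x, y))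
          rw [φ.apply_symm_apply] at this
          exact this.symm
        have h1 : φ.symm (x, y) = (x, (φ.symm (x, y)).2) := Prod.ext h0 rfl
        rw [← h1, φ.apply_symm_apply]
      qe := by
        intro x
        rw [hφ2]
      K := j ⁻¹' K'
      hK := hj.isInducing.isCompact_preimage' hK'c hK'r
      eK := mem_iInter.2 fun n => mem_of_mem_nhds (c n).2.1
      U := fun n => j ⁻¹' interior (c n).1
      C := fun n => j ⁻¹' (c n).1
      hU := fun n => isOpen_interior.preimage hj.continuous
      hC := fun n => (c n).2.2.preimage hj.continuous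
      KU := fun n => preimage_mono (hKi n)
      UC := fun n => preimage_mono interior_subset
      CU := fun n => preimage_mono ((hc' n).trans inter_subset_left)
      base := by
        intro O hO hKO
        obtain ⟨O', hO', rfl⟩ := hj.isInducing.isOpen_iff.1 hO
        have hKO' : K' ⊆ O' := by
          intro z hz
          obtain ⟨x, rfl⟩ := hK'r hz
          exact hKO hz
        obtain ⟨n, hn⟩ := exists_subset_nhds_of_isCompact' (V := fun n => (c n).1)
          (directed_of_isDirected_le fun m n h => hanti h)
          (fun n => (c n).2.2.isCompact) (fun n => (c n).2.2)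
          (U := O') (fun x hx => hO'.mem_nhds (hKO' hx))
        exact ⟨n, preimage_mono (interior_subset.trans hn)⟩
      inter := by
        intro x hx
        exact mem_iInter.2 fun n => interior_subset (hx n) }
  exact d.lindelof hc

end Pool.Agent.Results.MP_46c3d4_gt.LindelofOfCountableSouslin
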